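import Mathlib

/-!
# Finite linear spaces and the local inequality of the points-lines-planes theorem
-/

open Finset

set_option linter.unusedSectionVars false

namespace Pool.Agent.PLP33

/-- A linear space: points `P`, lines `L`. -/
structure Lin (P L : Type*) where
  inc : P → L → Prop
  ex : ∀ a b, a ≠ b → ∃ l, inc a l ∧ inc b l
  uq : ∀ a b l l', a ≠ b → inc a l → inc b l → inc a l' → inc b l' → l = l'
  two : ∀ l, ∃ a b, a ≠ b ∧ inc a l ∧ inc b l

namespace Lin

variable {P L : Type*} [Fintype P] [Fintype L] (S : Lin P L)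

open Classical in
/-- incidence indicator -/
noncomputable def i (x : P) (g : L) : ℝ := if S.inc x g then 1 else 0

/-- size of a line -/
noncomputable def K (g : L) : ℝ := ∑ x, S.i x g

/-- degree of a point -/
noncomputable def r (x : P) : ℝ := ∑ g, S.i x g

open Classical in
/-- size of a line, as a natural number -/
noncomputable def kn (g : L) : ℕ := (univ.filter fun x => S.inc x g).card

theorem i_sq (x : P) (g : L) : S.i x g * S.i x g = S.i x g := by
  unfold i; split_ifs <;> norm_num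

theorem i_nonneg (x : P) (g : L) : 0 ≤ S.i x g := by
  unfold i; split_ifs <;> norm_num

theorem K_eq (g : L) : S.K g = (S.kn g : ℝ) := by
  classical
  unfold K kn i
  rw [Finset.sum_boole]

theorem kn_two (g : L) : 2 ≤ S.kn g := by
  classical
  obtain ⟨a, b, hab, ha, hb⟩ := S.two g
  unfold kn
  rw [← Finset.card_pair hab]
  refine Finset.card_le_card ?_
  intro x hx
  rw [Finset.mem_insert, Finset.mem_singleton] at hx
  rcases hx with rfl | rfl <;> simp [ha, hb]

theorem K_two (g : L) : 2 ≤ S.K g := by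
  rw [K_eq]; exact_mod_cast S.kn_two g

theorem pair {x y : P} (h : x ≠ y) : ∑ g, S.i x g * S.i y g = 1 := by
  classical
  obtain ⟨g, h1, h2⟩ := S.ex x y h
  rw [Finset.sum_eq_single g]
  · simp [i, h1, h2]
  · intro g' _ hne
    by_cases h3 : S.inc x g'
    · by_cases h4 : S.inc y g'
      · exact absurd (S.uq x y g' g h h3 h4 h1 h2) hne
      · simp [i, h4]
    · simp [i, h3]
  · simp

open Classical in
theorem pair' (x y : P) : ∑ g, S.i x g * S.i y g = (if x = y then S.r x - 1 else 0) + 1 := by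
  split_ifs with h
  · subst h; simp only [i_sq]; unfold r; ring
  · rw [S.pair h]; ring

/-- double counting -/
theorem dc (a : P → ℝ) : ∑ g, (∑ x, S.i x g * a x) ^ 2 =
    ∑ x, S.r x * a x ^ 2 - ∑ x, a x ^ 2 + (∑ x, a x) ^ 2 := by
  classical
  have h1 : ∑ g, (∑ x, S.i x g * a x) ^ 2 =
      ∑ x, ∑ y, a x * a y * ∑ g, S.i x g * S.i y g := by
    have : ∀ g, (∑ x, S.i x g * a x) ^ 2 = ∑ x, ∑ y, a x * a y * (S.i x g * S.i y g) := by
      intro g
      rw [sq, Finset.sum_mul_sum]
      refine Finset.sum_congr rfl fun x _ => Finset.sum_congr rfl fun y _ => by ring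
    rw [Finset.sum_congr rfl fun g _ => this g, Finset.sum_comm]
    refine Finset.sum_congr rfl fun x _ => ?_
    rw [Finset.sum_comm]
    refine Finset.sum_congr rfl fun y _ => ?_
    rw [Finset.mul_sum]
  rw [h1]
  have h2 : ∀ x, ∑ y, a x * a y * ∑ g, S.i x g * S.i y g =
      (S.r x - 1) * a x ^ 2 + a x * ∑ y, a y := by
    intro x
    have : ∀ y, a x * a y * ∑ g, S.i x g * S.i y g =
        (if x = y then (S.r x - 1) * (a x * a y) else 0) + a x * a y := by
      intro y
      rw [S.pair']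
      split_ifs <;> ring
    rw [Finset.sum_congr rfl fun y _ => this y, Finset.sum_add_distrib, Finset.sum_ite_eq,
      if_pos (Finset.mem_univ _), Finset.mul_sum]
    ring
  rw [Finset.sum_congr rfl fun x _ => h2 x, Finset.sum_add_distrib, ← Finset.sum_mul, sq (∑ x, a x)]
  congr 1
  rw [← Finset.sum_sub_distrib]
  refine Finset.sum_congr rfl fun x _ => by ring

/-- counting pairs `(g, y)` with `x, y ∈ g` -/
theorem count_at (x : P) : ∑ g, S.i x g * S.K g = S.r x - 1 + (Fintype.card P : ℝ) := by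
  classical
  have h1 : ∑ g, S.i x g * S.K g = ∑ y, ∑ g, S.i x g * S.i y g := by
    rw [Finset.sum_comm]
    refine Finset.sum_congr rfl fun g _ => ?_
    unfold K
    rw [Finset.mul_sum]
  rw [h1, Finset.sum_congr rfl fun y _ => S.pair' x y, Finset.sum_add_distrib, Finset.sum_ite_eq,
    if_pos (Finset.mem_univ _)]
  simp

theorem sum_K : ∑ g, S.K g = ∑ x, S.r x := by
  unfold K r
  rw [Finset.sum_comm]

/-- `∑ k (k-1) = p (p-1)` -/
theorem sum_KK : ∑ g, S.K g * (S.K g - 1) =
    (Fintype.card P : ℝ) * ((Fintype.card P : ℝ) - 1) := by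
  have h := S.dc (fun _ => (1 : ℝ))
  simp only [mul_one, one_pow, Finset.sum_const, Finset.card_univ, nsmul_eq_mul] at h
  have h1 : ∑ g, S.K g * (S.K g - 1) = ∑ g, (∑ x, S.i x g) ^ 2 - ∑ g, S.K g := by
    rw [← Finset.sum_sub_distrib]
    refine Finset.sum_congr rfl fun g _ => ?_
    unfold K; ring
  rw [h1, h, S.sum_K]
  ring

/-- the local quantity -/
noncomputable def J (a : P → ℝ) (u : L → ℝ) : ℝ :=
  ∑ x, (∑ g, S.i x g * (u g - a x)) ^ 2 - ∑ g, ∑ x, S.i x g * (u g - a x) ^ 2

theorem J_lower (a : P → ℝ) (u : L → ℝ) (hu : ∀ g, S.K g * u g = 1 + ∑ x, S.i x g * a x)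
    (ha : ∑ x, a x = 0) (hP : 0 < Fintype.card P) :
    (Fintype.card L : ℝ) ^ 2 / (Fintype.card P : ℝ) +
      ∑ g, ((∑ x, S.i x g * a x) ^ 2 - u g * (1 + ∑ x, S.i x g * a x)) ≤ S.J a u := by
  classical
  set p : ℝ := (Fintype.card P : ℝ) with hp
  set l : ℝ := (Fintype.card L : ℝ) with hl
  have hp0 : 0 < p := by rw [hp]; exact_mod_cast hP
  set A : L → ℝ := fun g => ∑ x, S.i x g * a x with hA
  set B : P → ℝ := fun x => ∑ g, S.i x g * (u g - a x) with hB
  set c : ℝ := l / p with hc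
  have hu' : ∀ g, S.K g * u g = 1 + A g := hu
  -- sum of B
  have hBs : ∑ x, B x = l := by
    simp only [hB]
    rw [Finset.sum_comm]
    have : ∀ g, ∑ x, S.i x g * (u g - a x) = 1 := by
      intro g
      have : ∑ x, S.i x g * (u g - a x) = S.K g * u g - A g := by
        simp only [hA, K]
        rw [Finset.sum_mul, ← Finset.sum_sub_distrib]
        refine Finset.sum_congr rfl fun x _ => by ring
      rw [this, hu' g]; ring
    rw [Finset.sum_congr rfl fun g _ => this g]
    simp [hl]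
  have hrs : ∑ g, ∑ x, S.i x g * a x ^ 2 = ∑ x, S.r x * a x ^ 2 := by
    rw [Finset.sum_comm]
    refine Finset.sum_congr rfl fun x _ => ?_
    unfold r
    rw [Finset.sum_mul]
  have hBa : ∑ x, B x * a x = ∑ g, u g * A g - ∑ x, S.r x * a x ^ 2 := by
    rw [← hrs, ← Finset.sum_sub_distrib]
    simp only [hB, Finset.sum_mul]
    rw [Finset.sum_comm]
    refine Finset.sum_congr rfl fun g _ => ?_
    simp only [hA, Finset.mul_sum]
    rw [← Finset.sum_sub_distrib]
    refine Finset.sum_congr rfl fun x _ => by ring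
  have hW : ∑ g, ∑ x, S.i x g * (u g - a x) ^ 2 =
      ∑ g, (u g - u g * A g) + ∑ x, S.r x * a x ^ 2 := by
    rw [← hrs, ← Finset.sum_add_distrib]
    refine Finset.sum_congr rfl fun g _ => ?_
    have : ∑ x, S.i x g * (u g - a x) ^ 2 =
        (S.K g * u g) * u g - 2 * u g * A g + ∑ x, S.i x g * a x ^ 2 := by
      simp only [hA, K, Finset.sum_mul, Finset.mul_sum]
      rw [← Finset.sum_sub_distrib, ← Finset.sum_add_distrib]
      refine Finset.sum_congr rfl fun x _ => by ring
    rw [this, hu' g]; ring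
  have hD : ∑ g, A g ^ 2 = ∑ x, S.r x * a x ^ 2 - ∑ x, a x ^ 2 := by
    have := S.dc a
    rw [ha] at this
    simp only [hA]
    rw [this]; ring
  have hsq : 0 ≤ ∑ x, (B x + a x - c) ^ 2 := Finset.sum_nonneg fun x _ => sq_nonneg _
  have hexp : ∑ x, (B x + a x - c) ^ 2 =
      ∑ x, B x ^ 2 + 2 * ∑ x, B x * a x - 2 * c * ∑ x, B x + ∑ x, a x ^ 2
        - 2 * c * ∑ x, a x + p * c ^ 2 := by
    have : ∀ x, (B x + a x - c) ^ 2 =
        B x ^ 2 + 2 * (B x * a x) - 2 * c * B x + a x ^ 2 - 2 * c * a x + c ^ 2 := by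
      intro x; ring
    rw [Finset.sum_congr rfl fun x _ => this x, Finset.sum_add_distrib, Finset.sum_sub_distrib,
      Finset.sum_add_distrib, Finset.sum_sub_distrib, Finset.sum_add_distrib, ← Finset.mul_sum,
      ← Finset.mul_sum, ← Finset.mul_sum]
    simp [hp]
  have hJ : S.J a u = ∑ x, B x ^ 2 - ∑ g, ∑ x, S.i x g * (u g - a x) ^ 2 := rfl
  have hgoal : ∑ g, (A g ^ 2 - u g * (1 + A g)) = ∑ g, A g ^ 2 - ∑ g, u g - ∑ g, u g * A g := by
    rw [← Finset.sum_sub_distrib, ← Finset.sum_sub_distrib]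
    refine Finset.sum_congr rfl fun g _ => by ring
  have hcl : c * l = l ^ 2 / p := by rw [hc]; ring
  have hcc : p * c ^ 2 = l ^ 2 / p := by rw [hc]; field_simp
  have hus : ∑ g, (u g - u g * A g) = ∑ g, u g - ∑ g, u g * A g := Finset.sum_sub_distrib _ _
  change l ^ 2 / p + ∑ g, (A g ^ 2 - u g * (1 + A g)) ≤ S.J a u
  rw [hJ, hW, hgoal, hD, hus]
  rw [hexp, hBs, hBa, ha, hcc] at hsq
  have : 2 * c * l = 2 * (l ^ 2 / p) := by rw [← hcl]; ring
  rw [this] at hsq
  linarith

end Lin

end Pool.Agent.PLP33
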