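import Mathlib
import Pool.Agent.PLP33.Local

/-!
# The local inequality `J ≥ 3/2` in a linear space which is not a single line
-/

open Finset

set_option linter.unusedSectionVars false

namespace Pool.Agent.PLP33

namespace Lin

variable {P L : Type*} [Fintype P] [Fintype L] (S : Lin P L)

/-- de Bruijn - Erdos -/
theorem card_le (hP : Nontrivial P) (hnc : ∀ g, ∃ x, ¬ S.inc x g) :
    Fintype.card P ≤ Fintype.card L := by
  classical
  let _ : Membership P L := ⟨fun l p => S.inc p l⟩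
  have : Configuration.Nondegenerate P L :=
    { exists_point := hnc
      exists_line := by
        intro x
        obtain ⟨y, hy⟩ := exists_ne x
        obtain ⟨g, hg1, hg2⟩ := S.ex x y hy.symm
        obtain ⟨z, hz⟩ := hnc g
        have hyz : y ≠ z := by rintro rfl; exact hz hg2
        obtain ⟨h, hh1, hh2⟩ := S.ex y z hyz
        refine ⟨h, fun hx => ?_⟩
        have : h = g := S.uq x y h g hy.symm hx hh1 hg1 hg2
        rw [this] at hh2
        exact hz hh2
      eq_or_eq := by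
        intro a b g h h1 h2 h3 h4
        by_cases hab : a = b
        · exact Or.inl hab
        · exact Or.inr (S.uq a b g h hab h1 h2 h3 h4) }
  let _ : Configuration.HasLines P L :=
    { mkLine := fun {a b} hab => (S.ex a b hab).choose
      mkLine_ax := fun {a b} hab => (S.ex a b hab).choose_spec }
  exact Configuration.HasLines.card_le P L

/-- the contribution of a line to the lower bound -/
theorem E_lower {k u A : ℝ} (hk : 2 ≤ k) (h : k * u = 1 + A) :
    -1 ≤ A ^ 2 - u * (1 + A) := by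
  have h1 : A = k * u - 1 := by linarith
  subst h1
  nlinarith [sq_nonneg ((k - 1) * u - 1), sq_nonneg (u - 1), sq_nonneg u,
    mul_nonneg (sub_nonneg.2 hk) (sq_nonneg (k * u)), mul_nonneg (sub_nonneg.2 hk) (sq_nonneg u)]

theorem E_lower3 {k u A : ℝ} (hk : 3 ≤ k) (h : k * u = 1 + A) :
    -(1 / 2) ≤ A ^ 2 - u * (1 + A) := by
  have h1 : A = k * u - 1 := by linarith
  subst h1
  have h2 : 0 ≤ k * ((k - 1) * u - 1) ^ 2 := mul_nonneg (by linarith) (sq_nonneg _)
  have h3 : (k - 1) * ((k * u - 1) ^ 2 - u * (1 + (k * u - 1))) =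
      k * ((k - 1) * u - 1) ^ 2 - 1 := by ring
  have h4 : -1 ≤ (k - 1) * ((k * u - 1) ^ 2 - u * (1 + (k * u - 1))) := by rw [h3]; linarith
  by_contra hcon
  push Not at hcon
  nlinarith

open Classical in
/-- lines with at least three points -/
noncomputable def big : Finset L := univ.filter fun g => 3 ≤ S.kn g

theorem kn_of_not_big {g : L} (h : g ∉ S.big) : S.kn g = 2 := by
  unfold big at h
  rw [Finset.mem_filter] at h
  have := S.kn_two g
  have h2 : ¬ 3 ≤ S.kn g := fun h3 => h ⟨Finset.mem_univ _, h3⟩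
  omega

theorem sum_E (a : P → ℝ) (u : L → ℝ) (hu : ∀ g, S.K g * u g = 1 + ∑ x, S.i x g * a x) :
    -(Fintype.card L : ℝ) + (S.big.card : ℝ) / 2 ≤
      ∑ g, ((∑ x, S.i x g * a x) ^ 2 - u g * (1 + ∑ x, S.i x g * a x)) := by
  classical
  have h1 : ∑ g : L, ((-1 : ℝ) + if g ∈ S.big then (1 / 2 : ℝ) else 0) ≤
      ∑ g, ((∑ x, S.i x g * a x) ^ 2 - u g * (1 + ∑ x, S.i x g * a x)) := by
    refine Finset.sum_le_sum fun g _ => ?_
    split_ifs with h
    · have h3 : (3 : ℝ) ≤ S.K g := by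
        rw [K_eq]
        unfold big at h
        rw [Finset.mem_filter] at h
        exact_mod_cast h.2
      have := E_lower3 h3 (hu g)
      linarith
    · have := E_lower (S.K_two g) (hu g)
      linarith
  refine le_trans (le_of_eq ?_) h1
  rw [Finset.sum_add_distrib, Finset.sum_ite_mem]
  simp
  ring

/-- the near-pencil -/
theorem J_pencil (a : P → ℝ) (u : L → ℝ) (hu : ∀ g, S.K g * u g = 1 + ∑ x, S.i x g * a x)
    (ha : ∑ x, a x = 0) (hP : 3 ≤ Fintype.card P) (hcard : Fintype.card L = Fintype.card P)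
    (g0 : L) (h0 : S.K g0 = (Fintype.card P : ℝ) - 1) (hg : ∀ g, g ≠ g0 → S.K g = 2) :
    3 / 2 ≤ S.J a u := by
  classical
  set p : ℝ := (Fintype.card P : ℝ) with hp
  have hp3 : (3 : ℝ) ≤ p := by rw [hp]; exact_mod_cast hP
  obtain ⟨m, hm⟩ : ∃ m : ℝ, m = p - 1 := ⟨_, rfl⟩
  have hm2 : 2 ≤ m := by linarith
  set A : L → ℝ := fun g => ∑ x, S.i x g * a x with hA
  have hr : ∀ x, S.r x = m - (m - 2) * S.i x g0 := by
    intro x
    have h1 := S.count_at x
    have h2 : ∑ g, S.i x g * S.K g = 2 * S.r x + (m - 2) * S.i x g0 := by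
      have : ∀ g, S.i x g * S.K g = 2 * S.i x g +
          (if g = g0 then (m - 2) * S.i x g0 else 0) := by
        intro g
        split_ifs with h
        · subst h; rw [h0, ← hm]; ring
        · rw [hg g h]; ring
      rw [Finset.sum_congr rfl fun g _ => this g, Finset.sum_add_distrib, Finset.sum_ite_eq',
        if_pos (Finset.mem_univ _), ← Finset.mul_sum]
      rfl
    rw [h2] at h1
    linarith
  have hsumA : ∑ g, A g = -(m - 2) * A g0 := by
    have h1 : ∑ g, A g = ∑ x, S.r x * a x := by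
      simp only [hA]
      rw [Finset.sum_comm]
      refine Finset.sum_congr rfl fun x _ => ?_
      unfold r
      rw [Finset.sum_mul]
    rw [h1]
    have h2 : ∀ x, S.r x * a x = m * a x - (m - 2) * (S.i x g0 * a x) := by
      intro x; rw [hr x]; ring
    rw [Finset.sum_congr rfl fun x _ => h2 x, Finset.sum_sub_distrib, ← Finset.mul_sum,
      ← Finset.mul_sum, ha]
    simp only [hA]
    ring
  have hJ := S.J_lower a u hu ha (by omega)
  rw [hcard] at hJ
  change p ^ 2 / p + ∑ g, (A g ^ 2 - u g * (1 + A g)) ≤ S.J a u at hJ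
  have hpp : p ^ 2 / p = p := by field_simp
  rw [hpp] at hJ
  obtain ⟨τ, hτ⟩ : ∃ τ : ℝ, τ = -((m - 1) * A g0 + m) / m := ⟨_, rfl⟩
  have hm0 : m ≠ 0 := by linarith
  have hτm : m * τ = -((m - 1) * A g0 + m) := by rw [hτ]; field_simp
  -- lower bound of each term
  have hterm : ∀ g, (if g = g0 then A g0 ^ 2 - (1 + A g0) ^ 2 / m -
        ((τ * (A g0 - 1) - τ ^ 2 / 2) - 1) else 0) + ((τ * (A g - 1) - τ ^ 2 / 2) - 1) ≤
      A g ^ 2 - u g * (1 + A g) := by
    intro g
    split_ifs with h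
    · subst h
      have h1 : u g * (1 + A g) = (1 + A g) ^ 2 / m := by
        have h2 : m * u g = 1 + A g := by rw [hm, ← h0]; exact hu g
        rw [eq_div_iff hm0, ← h2]; ring
      rw [h1]; linarith
    · have h1 : 2 * u g = 1 + A g := by
        have := hu g
        rw [hg g h] at this
        exact this
      have h2 : u g = (1 + A g) / 2 := by linarith
      rw [h2]
      nlinarith [sq_nonneg (A g - 1 - τ)]
  have hsum := Finset.sum_le_sum fun g (_ : g ∈ (univ : Finset L)) => hterm g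
  rw [Finset.sum_add_distrib, Finset.sum_ite_eq', if_pos (Finset.mem_univ _)] at hsum
  have hlin : ∑ g, ((τ * (A g - 1) - τ ^ 2 / 2) - 1) =
      τ * ∑ g, A g - (m + 1) * (τ + τ ^ 2 / 2 + 1) := by
    have : ∀ g, ((τ * (A g - 1) - τ ^ 2 / 2) - 1) = τ * A g - (τ + τ ^ 2 / 2 + 1) := by
      intro g; ring
    rw [Finset.sum_congr rfl fun g _ => this g, Finset.sum_sub_distrib, ← Finset.mul_sum]
    simp only [Finset.sum_const, Finset.card_univ, nsmul_eq_mul]
    rw [hcard, hm, hp]
    ring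
  rw [hlin, hsumA] at hsum
  have hkey : 3 / 2 ≤ p + (A g0 ^ 2 - (1 + A g0) ^ 2 / m -
      ((τ * (A g0 - 1) - τ ^ 2 / 2) - 1) + (τ * (-(m - 2) * A g0) -
        (m + 1) * (τ + τ ^ 2 / 2 + 1))) := by
    have hp' : p = m + 1 := by linarith
    have e1 : (1 + A g0) ^ 2 / m * m = (1 + A g0) ^ 2 := by field_simp
    have e2 : 0 ≤ (m + 1) * ((m - 2) * (A g0 + 1) ^ 2 + A g0 ^ 2) := by
      have : 0 ≤ (m - 2) * (A g0 + 1) ^ 2 := mul_nonneg (by linarith) (sq_nonneg _)
      have := sq_nonneg (A g0)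
      exact mul_nonneg (by linarith) (by linarith)
    have e3 : m * τ ^ 2 * m = ((m - 1) * A g0 + m) ^ 2 := by
      have : m * τ ^ 2 * m = (m * τ) ^ 2 := by ring
      rw [this, hτm]; ring
    have hmpos : 0 < 2 * m := by linarith
    rw [← sub_nonneg]
    refine nonneg_of_mul_nonneg_right (b := _) ?_ hmpos
    have e4 : 2 * m * (p + (A g0 ^ 2 - (1 + A g0) ^ 2 / m -
      ((τ * (A g0 - 1) - τ ^ 2 / 2) - 1) + (τ * (-(m - 2) * A g0) -
        (m + 1) * (τ + τ ^ 2 / 2 + 1))) - 3 / 2) =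
        (m + 1) * ((m - 2) * (A g0 + 1) ^ 2 + A g0 ^ 2) := by
      have e5 : 2 * m * (p + (A g0 ^ 2 - (1 + A g0) ^ 2 / m -
      ((τ * (A g0 - 1) - τ ^ 2 / 2) - 1) + (τ * (-(m - 2) * A g0) -
        (m + 1) * (τ + τ ^ 2 / 2 + 1))) - 3 / 2) =
          2 * m * p + 2 * m * A g0 ^ 2 - 2 * ((1 + A g0) ^ 2 / m * m) -
          2 * ((m * τ) * ((m - 1) * A g0 + m)) - (m * τ ^ 2 * m) - 2 * m * m - 3 * m := by
        ring
      rw [e5, e1, e3, hτm, hp']
      ring
    rw [e4]; exact e2
  linarith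

end Lin

end Pool.Agent.PLP33
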