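import Mathlib
import Pool.Agent.PLP33.Local2

/-!
# The local inequality `J ≥ 3/2`, final form
-/

open Finset

set_option linter.unusedSectionVars false

namespace Pool.Agent.PLP33

namespace Lin

variable {P L : Type*} [Fintype P] [Fintype L] (S : Lin P L)

/-- `∑ k (k-1) = p (p-1)` over the integers, split in big lines and lines with two points -/
theorem count_big : 2 * ((Fintype.card L : ℤ) - S.big.card) +
    ∑ g ∈ S.big, (S.kn g : ℤ) * ((S.kn g : ℤ) - 1) =
      (Fintype.card P : ℤ) * ((Fintype.card P : ℤ) - 1) := by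
  classical
  have h := S.sum_KK
  have h1 : ∑ g, ((S.kn g : ℤ) * ((S.kn g : ℤ) - 1)) =
      (Fintype.card P : ℤ) * ((Fintype.card P : ℤ) - 1) := by
    have h2 : ((∑ g, ((S.kn g : ℤ) * ((S.kn g : ℤ) - 1)) : ℤ) : ℝ) =
        ((Fintype.card P : ℤ) * ((Fintype.card P : ℤ) - 1) : ℤ) := by
      push_cast
      rw [← h]
      refine Finset.sum_congr rfl fun g _ => ?_
      rw [K_eq]
    exact_mod_cast h2
  rw [← h1, ← Finset.sum_add_sum_compl S.big]
  have h3 : ∑ g ∈ S.bigᶜ, (S.kn g : ℤ) * ((S.kn g : ℤ) - 1) =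
      2 * ((Fintype.card L : ℤ) - S.big.card) := by
    have : ∀ g ∈ S.bigᶜ, (S.kn g : ℤ) * ((S.kn g : ℤ) - 1) = 2 := by
      intro g hg
      rw [S.kn_of_not_big (Finset.mem_compl.mp hg)]
      norm_num
    rw [Finset.sum_congr rfl this, Finset.sum_const, Finset.card_compl, nsmul_eq_mul]
    have := Finset.card_le_univ S.big
    rw [Nat.cast_sub this]
    ring
  rw [h3]
  ring

/-- two distinct lines have at most `p + 1` points together -/
theorem kn_add_le {g h : L} (hne : g ≠ h) : S.kn g + S.kn h ≤ Fintype.card P + 1 := by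
  classical
  unfold kn
  rw [← Finset.card_union_add_card_inter]
  have h1 : ((univ.filter fun x => S.inc x g) ∩ (univ.filter fun x => S.inc x h)).card ≤ 1 := by
    rw [Finset.card_le_one]
    intro a ha b hb
    rw [Finset.mem_inter, Finset.mem_filter, Finset.mem_filter] at ha hb
    by_contra hab
    exact hne (S.uq a b g h hab ha.1.2 hb.1.2 ha.2.2 hb.2.2)
  have h2 := Finset.card_le_univ
    ((univ.filter fun x => S.inc x g) ∪ (univ.filter fun x => S.inc x h))
  omega

theorem three_le (hL : Nonempty L) (hnc : ∀ g, ∃ x, ¬ S.inc x g) : 3 ≤ Fintype.card P := by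
  classical
  obtain ⟨g⟩ := hL
  obtain ⟨x, hx⟩ := hnc g
  have h1 := S.kn_two g
  have h2 : S.kn g < Fintype.card P := by
    unfold kn
    rw [← Finset.card_univ]
    refine Finset.card_lt_card ?_
    rw [Finset.ssubset_univ_iff]
    intro h
    have : x ∈ (univ.filter fun x => S.inc x g) := by rw [h]; exact Finset.mem_univ _
    rw [Finset.mem_filter] at this
    exact hx this.2
  omega

theorem J_lower2 (a : P → ℝ) (u : L → ℝ) (hu : ∀ g, S.K g * u g = 1 + ∑ x, S.i x g * a x)
    (ha : ∑ x, a x = 0) (hP : 0 < Fintype.card P) :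
    (Fintype.card L : ℝ) ^ 2 / (Fintype.card P : ℝ) - (Fintype.card L : ℝ)
      + (S.big.card : ℝ) / 2 ≤ S.J a u := by
  have h1 := S.J_lower a u hu ha hP
  have h2 := S.sum_E a u hu
  linarith

/-- the centered case -/
theorem J_ge_centered (hL : Nonempty L) (hnc : ∀ g, ∃ x, ¬ S.inc x g)
    (a : P → ℝ) (u : L → ℝ) (hu : ∀ g, S.K g * u g = 1 + ∑ x, S.i x g * a x)
    (ha : ∑ x, a x = 0) : 3 / 2 ≤ S.J a u := by
  classical
  have h3 := S.three_le hL hnc
  have : Nontrivial P := Fintype.one_lt_card_iff_nontrivial.mp (by omega)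
  have hle := S.card_le inferInstance hnc
  have hJ := S.J_lower2 a u hu ha (by omega)
  have hc := S.count_big
  set p := Fintype.card P with hp
  set l := Fintype.card L with hl
  have hp0 : (0 : ℝ) < (p : ℝ) := by exact_mod_cast (by omega : 0 < p)
  have hp3 : (3 : ℝ) ≤ (p : ℝ) := by exact_mod_cast h3
  rcases Nat.lt_or_ge (p + 1) l with h | h
  · -- l ≥ p + 2
    have h4 : (p : ℝ) + 2 ≤ (l : ℝ) := by exact_mod_cast h
    have h5 : (3 / 2 : ℝ) + (l : ℝ) ≤ (l : ℝ) ^ 2 / (p : ℝ) := by
      rw [le_div_iff₀ hp0]; nlinarith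
    have h6 : (0 : ℝ) ≤ (S.big.card : ℝ) := Nat.cast_nonneg _
    linarith
  · rcases Nat.lt_or_ge p l with h' | h'
    · -- l = p + 1
      have hl1 : l = p + 1 := by omega
      have h4 : (l : ℝ) = (p : ℝ) + 1 := by rw [hl1]; push_cast; ring
      have h5 : (1 : ℝ) + (l : ℝ) ≤ (l : ℝ) ^ 2 / (p : ℝ) := by
        rw [le_div_iff₀ hp0, h4]; nlinarith
      rcases Nat.eq_zero_or_pos S.big.card with hb | hb
      · exfalso
        rw [Finset.card_eq_zero.mp hb] at hc
        simp only [Finset.card_empty, Nat.cast_zero, sub_zero, Finset.sum_empty, add_zero] at hc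
        rw [hl1] at hc
        push_cast at hc
        have h33 : (3 : ℤ) ≤ (p : ℤ) := by exact_mod_cast h3
        rcases eq_or_lt_of_le h33 with h34 | h34
        · rw [← h34] at hc; norm_num at hc
        · nlinarith
      · have : (1 : ℝ) ≤ (S.big.card : ℝ) := by exact_mod_cast hb
        linarith
    · -- l = p
      have hl1 : l = p := by omega
      have h5 : (l : ℝ) ^ 2 / (p : ℝ) = (l : ℝ) := by rw [hl1]; field_simp
      rw [h5] at hJ
      rcases Nat.lt_or_ge 2 S.big.card with hb | hb
      · have : (3 : ℝ) ≤ (S.big.card : ℝ) := by exact_mod_cast hb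
        linarith
      · -- at most two big lines
        interval_cases hbc : S.big.card
        · -- none : triangle
          have hb0 := Finset.card_eq_zero.mp hbc
          obtain ⟨g0⟩ := hL
          have hk2 : ∀ g, S.K g = 2 := by
            intro g
            rw [K_eq, S.kn_of_not_big (by rw [hb0]; simp)]; norm_num
          rw [hb0] at hc
          simp only [Finset.sum_empty, add_zero] at hc
          have hp33 : p = 3 := by
            rw [hl1] at hc
            push_cast at hc
            have h33 : (3 : ℤ) ≤ (p : ℤ) := by exact_mod_cast h3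
            by_contra hne
            have h34 : (4 : ℤ) ≤ (p : ℤ) := by
              have : 4 ≤ p := by omega
              exact_mod_cast this
            nlinarith
          refine S.J_pencil a u hu ha h3 hl1 g0 ?_ (fun g _ => hk2 g)
          rw [hk2]
          have : (Fintype.card P : ℝ) = 3 := by exact_mod_cast hp33
          rw [this]; norm_num
        · -- one big line : near pencil
          obtain ⟨g0, hg0⟩ := Finset.card_eq_one.mp hbc
          rw [hg0] at hc
          simp only [Finset.sum_singleton] at hc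
          have hkk : (S.kn g0 : ℤ) = (p : ℤ) - 1 := by
            rw [hl1] at hc
            push_cast at hc
            have h33 : (3 : ℤ) ≤ (p : ℤ) := by exact_mod_cast h3
            have h34 : (2 : ℤ) ≤ (S.kn g0 : ℤ) := by exact_mod_cast S.kn_two g0
            have h35 : ((S.kn g0 : ℤ) - ((p : ℤ) - 1)) * ((S.kn g0 : ℤ) + (p : ℤ) - 2) = 0 := by
              linarith
            rcases mul_eq_zero.mp h35 with h36 | h36
            · linarith
            · linarith
          refine S.J_pencil a u hu ha h3 hl1 g0 ?_ ?_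
          · rw [K_eq]
            have : ((S.kn g0 : ℤ) : ℝ) = ((p : ℤ) : ℝ) - 1 := by rw [hkk]; push_cast; ring
            exact_mod_cast this
          · intro g hg
            rw [K_eq, S.kn_of_not_big (by rw [hg0, Finset.mem_singleton]; exact hg)]
            norm_num
        · -- two big lines : impossible
          exfalso
          obtain ⟨g0, g1, hne, hg⟩ := Finset.card_eq_two.mp hbc
          rw [hg, Finset.sum_pair hne] at hc
          have h6 := S.kn_add_le hne
          have hb0 : 3 ≤ S.kn g0 := by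
            have : g0 ∈ S.big := by rw [hg]; simp
            unfold big at this
            rw [Finset.mem_filter] at this
            exact this.2
          have hb1 : 3 ≤ S.kn g1 := by
            have : g1 ∈ S.big := by rw [hg]; simp
            unfold big at this
            rw [Finset.mem_filter] at this
            exact this.2
          rw [hl1] at hc
          push_cast at hc
          rw [← hp] at h6
          have h6' : (S.kn g0 : ℤ) + (S.kn g1 : ℤ) ≤ (p : ℤ) + 1 := by exact_mod_cast h6
          have hb0' : (3 : ℤ) ≤ (S.kn g0 : ℤ) := by exact_mod_cast hb0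
          have hb1' : (3 : ℤ) ≤ (S.kn g1 : ℤ) := by exact_mod_cast hb1
          obtain ⟨x, hx⟩ : ∃ x : ℤ, x = (S.kn g0 : ℤ) := ⟨_, rfl⟩
          obtain ⟨y, hy⟩ : ∃ y : ℤ, y = (S.kn g1 : ℤ) := ⟨_, rfl⟩
          obtain ⟨q, hq⟩ : ∃ q : ℤ, q = (p : ℤ) := ⟨_, rfl⟩
          rw [← hx, ← hy, ← hq] at hc h6'
          rw [← hx] at hb0'
          rw [← hy] at hb1'
          -- y (y-1) ≤ (q+1-x)(q-x)
          have h7 : y * (y - 1) ≤ (q + 1 - x) * (q - x) := by nlinarith
          have h8 : 0 < (x - 2) * (q - 1 - x) := by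
            apply mul_pos <;> linarith
          nlinarith

/-- shifting does not change `J` -/
theorem J_shift (a : P → ℝ) (u : L → ℝ) (c : ℝ) :
    S.J (fun x => a x - c) (fun g => u g - c) = S.J a u := by
  unfold J
  simp only [sub_sub_sub_cancel_right]

theorem hu_shift (a : P → ℝ) (u : L → ℝ) (c : ℝ)
    (hu : ∀ g, S.K g * u g = 1 + ∑ x, S.i x g * a x) (g : L) :
    S.K g * (u g - c) = 1 + ∑ x, S.i x g * (a x - c) := by
  have : ∑ x, S.i x g * (a x - c) = ∑ x, S.i x g * a x - S.K g * c := by
    unfold K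
    rw [Finset.sum_mul, ← Finset.sum_sub_distrib]
    refine Finset.sum_congr rfl fun x _ => by ring
  rw [this, mul_sub, hu g]
  ring

theorem sum_shift (a : P → ℝ) (hP : 0 < Fintype.card P) :
    ∑ x, (a x - (∑ y, a y) / (Fintype.card P : ℝ)) = 0 := by
  have : (Fintype.card P : ℝ) ≠ 0 := by
    have : (0 : ℝ) < (Fintype.card P : ℝ) := by exact_mod_cast hP
    exact this.ne'
  rw [Finset.sum_sub_distrib]
  simp only [Finset.sum_const, Finset.card_univ, nsmul_eq_mul]
  field_simp
  ring

/-- **Local inequality.** -/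
theorem J_ge (hL : Nonempty L) (hnc : ∀ g, ∃ x, ¬ S.inc x g)
    (a : P → ℝ) (u : L → ℝ) (hu : ∀ g, S.K g * u g = 1 + ∑ x, S.i x g * a x) :
    3 / 2 ≤ S.J a u := by
  have h3 := S.three_le hL hnc
  rw [← S.J_shift a u ((∑ y, a y) / (Fintype.card P : ℝ))]
  exact S.J_ge_centered hL hnc _ _ (S.hu_shift a u _ hu) (sum_shift a (by omega))

/-- if all lines have two points and there are at least four points, the inequality is strict -/
theorem J_gt (hP : 4 ≤ Fintype.card P) (hk : ∀ g, S.kn g = 2)
    (a : P → ℝ) (u : L → ℝ) (hu : ∀ g, S.K g * u g = 1 + ∑ x, S.i x g * a x) :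
    3 / 2 < S.J a u := by
  classical
  rw [← S.J_shift a u ((∑ y, a y) / (Fintype.card P : ℝ))]
  have hJ := S.J_lower2 _ _ (S.hu_shift a u _ hu) (sum_shift a (by omega)) (by omega)
  refine lt_of_lt_of_le ?_ hJ
  have hb : S.big = ∅ := by
    unfold big
    rw [Finset.filter_eq_empty_iff]
    intro g _ h
    rw [hk g] at h
    omega
  have hc := S.count_big
  rw [hb] at hc ⊢
  simp only [Finset.card_empty, Nat.cast_zero, sub_zero, Finset.sum_empty, add_zero] at hc
  have hc' : 2 * (Fintype.card L : ℝ) = (Fintype.card P : ℝ) * ((Fintype.card P : ℝ) - 1) := by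
    exact_mod_cast hc
  have hp4 : (4 : ℝ) ≤ (Fintype.card P : ℝ) := by exact_mod_cast hP
  have hp0 : (0 : ℝ) < (Fintype.card P : ℝ) := by linarith
  simp only [Finset.card_empty, Nat.cast_zero, zero_div, add_zero]
  have : (3 / 2 : ℝ) + (Fintype.card L : ℝ) <
      (Fintype.card L : ℝ) ^ 2 / (Fintype.card P : ℝ) := by
    rw [lt_div_iff₀ hp0]
    have hl : (Fintype.card L : ℝ) = (Fintype.card P : ℝ) * ((Fintype.card P : ℝ) - 1) / 2 := by
      linarith
    rw [hl]
    nlinarith [mul_nonneg (sub_nonneg.2 hp4) (sub_nonneg.2 hp4),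
      mul_nonneg (mul_nonneg (sub_nonneg.2 hp4) (sub_nonneg.2 hp4)) hp0.le,
      mul_nonneg (mul_nonneg (mul_nonneg (sub_nonneg.2 hp4) (sub_nonneg.2 hp4)) hp0.le) hp0.le]
  linarith

end Lin

end Pool.Agent.PLP33
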