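import Mathlib
import Pool.Agent.PLP33.Local3
import Pool.Agent.H27.Planar

/-!
# The points-lines-planes inequality for planar spaces
-/

open Finset

set_option linter.unusedSectionVars false

namespace Pool.Agent.PLP33

namespace Lin

variable {P L : Type*} [Fintype P] [Fintype L] (S : Lin P L)

/-- the Laplacian plus the all-one matrix -/
noncomputable def lap : (P → ℝ) →ₗ[ℝ] (P → ℝ) where
  toFun a := fun x => ∑ g, S.i x g * (a x - (∑ y, S.i y g * a y) / S.K g) + ∑ y, a y
  map_add' a b := by
    funext x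
    simp only [Pi.add_apply, mul_add, Finset.sum_add_distrib]
    have : ∀ g, S.i x g * (a x + b x - (∑ y, S.i y g * a y + ∑ y, S.i y g * b y) / S.K g) =
        S.i x g * (a x - (∑ y, S.i y g * a y) / S.K g) +
          S.i x g * (b x - (∑ y, S.i y g * b y) / S.K g) := by
      intro g; ring
    rw [Finset.sum_congr rfl fun g _ => this g, Finset.sum_add_distrib]
    ring
  map_smul' c a := by
    funext x
    simp only [Pi.smul_apply, smul_eq_mul, RingHom.id_apply]
    have : ∀ g, S.i x g * (c * a x - (∑ y, S.i y g * (c * a y)) / S.K g) =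
        c * (S.i x g * (a x - (∑ y, S.i y g * a y) / S.K g)) := by
      intro g
      have : ∑ y, S.i y g * (c * a y) = c * ∑ y, S.i y g * a y := by
        rw [Finset.mul_sum]
        refine Finset.sum_congr rfl fun y _ => by ring
      rw [this]; ring
    rw [Finset.sum_congr rfl fun g _ => this g, ← Finset.mul_sum, ← Finset.mul_sum, mul_add]

theorem lap_form (a : P → ℝ) : ∑ x, a x * S.lap a x =
    ∑ g, ∑ x, S.i x g * (a x - (∑ y, S.i y g * a y) / S.K g) ^ 2 + (∑ x, a x) ^ 2 := by
  have h1 : ∀ x, a x * S.lap a x =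
      ∑ g, S.i x g * (a x - (∑ y, S.i y g * a y) / S.K g) * a x + a x * ∑ y, a y := by
    intro x
    change a x * (∑ g, S.i x g * (a x - (∑ y, S.i y g * a y) / S.K g) + ∑ y, a y) = _
    rw [mul_add, Finset.mul_sum]
    congr 1
    refine Finset.sum_congr rfl fun g _ => by ring
  rw [Finset.sum_congr rfl fun x _ => h1 x, Finset.sum_add_distrib, Finset.sum_comm,
    ← Finset.sum_mul, sq (∑ x, a x)]
  congr 1
  refine Finset.sum_congr rfl fun g _ => ?_
  set c := (∑ y, S.i y g * a y) / S.K g with hc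
  have hK : S.K g ≠ 0 := by have := S.K_two g; linarith
  have h2 : ∑ x, S.i x g * (a x - c) = 0 := by
    have : ∑ x, S.i x g * (a x - c) = ∑ x, S.i x g * a x - S.K g * c := by
      unfold K
      rw [Finset.sum_mul, ← Finset.sum_sub_distrib]
      refine Finset.sum_congr rfl fun x _ => by ring
    rw [this, hc]
    field_simp
    ring
  have h3 : ∑ x, S.i x g * (a x - c) * a x =
      ∑ x, S.i x g * (a x - c) ^ 2 + c * ∑ x, S.i x g * (a x - c) := by
    rw [Finset.mul_sum, ← Finset.sum_add_distrib]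
    refine Finset.sum_congr rfl fun x _ => by ring
  rw [h3, h2]
  ring

theorem lap_injective (hP : Nonempty P) : Function.Injective S.lap := by
  classical
  rw [injective_iff_map_eq_zero]
  intro a ha
  have h := S.lap_form a
  rw [ha] at h
  simp only [Pi.zero_apply, mul_zero, Finset.sum_const_zero] at h
  have h1 : ∀ g, 0 ≤ ∑ x, S.i x g * (a x - (∑ y, S.i y g * a y) / S.K g) ^ 2 := fun g =>
    Finset.sum_nonneg fun x _ => mul_nonneg (S.i_nonneg x g) (sq_nonneg _)
  have h2 : 0 ≤ ∑ g, ∑ x, S.i x g * (a x - (∑ y, S.i y g * a y) / S.K g) ^ 2 :=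
    Finset.sum_nonneg fun g _ => h1 g
  have h3 : (∑ x, a x) ^ 2 = 0 := le_antisymm (by linarith) (sq_nonneg _)
  have h4 : ∑ g, ∑ x, S.i x g * (a x - (∑ y, S.i y g * a y) / S.K g) ^ 2 = 0 := by linarith
  have h5 : ∑ x, a x = 0 := by simpa using h3
  have h6 : ∀ g x, S.inc x g → a x = (∑ y, S.i y g * a y) / S.K g := by
    intro g x hx
    have h7 := (Finset.sum_eq_zero_iff_of_nonneg (fun g _ => h1 g)).mp h4 g (Finset.mem_univ g)
    have h8 := (Finset.sum_eq_zero_iff_of_nonneg (fun x _ =>
      mul_nonneg (S.i_nonneg x g) (sq_nonneg _))).mp h7 x (Finset.mem_univ x)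
    have h9 : S.i x g = 1 := by simp [i, hx]
    rw [h9, one_mul] at h8
    have := pow_eq_zero_iff (n := 2) (by norm_num) |>.mp h8
    linarith
  have h7 : ∀ x y, a x = a y := by
    intro x y
    by_cases hxy : x = y
    · rw [hxy]
    · obtain ⟨g, h8, h9⟩ := S.ex x y hxy
      rw [h6 g x h8, h6 g y h9]
  obtain ⟨x0⟩ := hP
  have h8 : ∑ x, a x = (Fintype.card P : ℝ) * a x0 := by
    rw [Finset.sum_congr rfl fun x _ => h7 x x0]
    simp
  have h9 : (0 : ℝ) < (Fintype.card P : ℝ) := by
    exact_mod_cast Fintype.card_pos_iff.mpr ⟨x0⟩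
  have h10 : a x0 = 0 := by
    rw [h8] at h5
    rcases mul_eq_zero.mp h5 with h | h
    · exact absurd h h9.ne'
    · exact h
  funext x
  rw [h7 x x0, h10]
  rfl

/-- potentials with constant load -/
theorem exists_pot (hP : Nonempty P) : ∃ a : P → ℝ, ∀ x,
    ∑ g, S.i x g * ((1 + ∑ y, S.i y g * a y) / S.K g - a x) =
      (Fintype.card L : ℝ) / (Fintype.card P : ℝ) := by
  classical
  have hn : (0 : ℝ) < (Fintype.card P : ℝ) := by
    exact_mod_cast Fintype.card_pos_iff.mpr hP
  have hsurj := LinearMap.injective_iff_surjective.mp (S.lap_injective hP)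
  obtain ⟨a, ha⟩ := hsurj (fun x => ∑ g, S.i x g / S.K g -
    (Fintype.card L : ℝ) / (Fintype.card P : ℝ))
  have hx : ∀ x, ∑ g, S.i x g * (a x - (∑ y, S.i y g * a y) / S.K g) + ∑ y, a y =
      ∑ g, S.i x g / S.K g - (Fintype.card L : ℝ) / (Fintype.card P : ℝ) := fun x =>
    congrFun ha x
  -- sum over x
  have h0 : ∑ y, a y = 0 := by
    have h1 := Finset.sum_congr rfl fun x (_ : x ∈ (univ : Finset P)) => hx x
    rw [Finset.sum_add_distrib, Finset.sum_sub_distrib] at h1
    have h2 : ∑ x, ∑ g, S.i x g * (a x - (∑ y, S.i y g * a y) / S.K g) = 0 := by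
      rw [Finset.sum_comm]
      refine Finset.sum_eq_zero fun g _ => ?_
      have hK : S.K g ≠ 0 := by have := S.K_two g; linarith
      have : ∑ x, S.i x g * (a x - (∑ y, S.i y g * a y) / S.K g) =
          ∑ x, S.i x g * a x - S.K g * ((∑ y, S.i y g * a y) / S.K g) := by
        have e : S.K g * ((∑ y, S.i y g * a y) / S.K g) =
            ∑ x, S.i x g * ((∑ y, S.i y g * a y) / S.K g) := by
          rw [← Finset.sum_mul]; rfl
        rw [e, ← Finset.sum_sub_distrib]
        refine Finset.sum_congr rfl fun x _ => by ring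
      rw [this]
      field_simp
      ring
    have h3 : ∑ x, ∑ g, S.i x g / S.K g = (Fintype.card L : ℝ) := by
      rw [Finset.sum_comm]
      have : ∀ g, ∑ x, S.i x g / S.K g = 1 := by
        intro g
        have hK : S.K g ≠ 0 := by have := S.K_two g; linarith
        rw [← Finset.sum_div]
        exact div_self hK
      rw [Finset.sum_congr rfl fun g _ => this g]
      simp
    rw [h2, h3] at h1
    simp only [Finset.sum_const, Finset.card_univ, nsmul_eq_mul, zero_add] at h1
    have h4 : (Fintype.card P : ℝ) * ((Fintype.card L : ℝ) / (Fintype.card P : ℝ)) =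
        (Fintype.card L : ℝ) := by field_simp
    rw [h4, sub_self] at h1
    rcases mul_eq_zero.mp h1 with h | h
    · exact absurd h hn.ne'
    · exact h
  refine ⟨a, fun x => ?_⟩
  have h1 := hx x
  rw [h0, add_zero] at h1
  have h2 : ∑ g, S.i x g * ((1 + ∑ y, S.i y g * a y) / S.K g - a x) =
      ∑ g, S.i x g / S.K g - ∑ g, S.i x g * (a x - (∑ y, S.i y g * a y) / S.K g) := by
    rw [← Finset.sum_sub_distrib]
    refine Finset.sum_congr rfl fun g _ => by ring
  rw [h2, h1]
  ring

end Lin

end Pool.Agent.PLP33
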