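import Mathlib
import Pool.Agent.PLP33.Global

/-!
# Summing the local inequality over the planes
-/

open Finset

set_option linter.unusedSectionVars false

namespace Pool.Agent.PLP33

open Pool.Agent.H27

variable {P L Q : Type*} [Fintype P] [Fintype L] [Fintype Q] (S : Planar P L Q)

/-- the linear space of points and lines -/
def lin : Lin P L where
  inc := S.inc
  ex := S.line_exists
  uq := S.line_unique
  two := S.line_two

/-- the linear space of a plane -/
def loc (σ : Q) : Lin {x // S.mem x σ} {g // S.sub g σ} where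
  inc x g := S.inc x.1 g.1
  ex := by
    rintro ⟨a, ha⟩ ⟨b, hb⟩ hab
    have hab' : a ≠ b := fun h => hab (Subtype.ext h)
    obtain ⟨l, h1, h2⟩ := S.line_exists a b hab'
    exact ⟨⟨l, S.sub_of_mem a b l σ hab' ha hb h1 h2⟩, h1, h2⟩
  uq := by
    rintro ⟨a, ha⟩ ⟨b, hb⟩ ⟨l, hl⟩ ⟨l', hl'⟩ hab h1 h2 h3 h4
    exact Subtype.ext (S.line_unique a b l l' (fun h => hab (Subtype.ext h)) h1 h2 h3 h4)
  two := by
    rintro ⟨l, hl⟩
    obtain ⟨a, b, hab, ha, hb⟩ := S.line_two l
    exact ⟨⟨a, S.mem_of_sub l σ a hl ha⟩, ⟨b, S.mem_of_sub l σ b hl hb⟩,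
      fun h => hab (Subtype.ext_iff.mp h), ha, hb⟩

theorem loc_nc (σ : Q) (g : {g // S.sub g σ}) : ∃ x, ¬ (loc S σ).inc x g := by
  obtain ⟨a, b, c, ha, hb, hc, hab, h⟩ := S.plane_three σ
  by_cases h1 : S.inc a g.1
  · by_cases h2 : S.inc b g.1
    · exact ⟨⟨c, hc⟩, h g.1 h1 h2⟩
    · exact ⟨⟨b, hb⟩, h2⟩
  · exact ⟨⟨a, ha⟩, h1⟩

theorem loc_ne (σ : Q) : Nonempty {g // S.sub g σ} := by
  obtain ⟨a, b, c, ha, hb, hc, hab, h⟩ := S.plane_three σ
  obtain ⟨l, h1, h2⟩ := S.line_exists a b hab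
  exact ⟨⟨l, S.sub_of_mem a b l σ hab ha hb h1 h2⟩⟩

open Classical in
/-- indicator of `line ⊆ plane` -/
noncomputable def sb (g : L) (σ : Q) : ℝ := if S.sub g σ then 1 else 0

open Classical in
noncomputable instance (σ : Q) : Fintype {x // S.mem x σ} := Subtype.fintype _

open Classical in
noncomputable instance (σ : Q) : Fintype {g // S.sub g σ} := Subtype.fintype _

/-- sums over the points of a line in a plane -/
theorem sum_pts (σ : Q) (g : {g // S.sub g σ}) (f : P → ℝ) :
    ∑ x : {x // S.mem x σ}, (loc S σ).i x g * f x.1 = ∑ x, (lin S).i x g.1 * f x := by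
  classical
  have h1 : ∑ x : {x // S.mem x σ}, (loc S σ).i x g * f x.1 =
      ∑ x ∈ univ.filter (fun x => S.mem x σ), (lin S).i x g.1 * f x := by
    rw [Finset.sum_subtype (univ.filter (fun x => S.mem x σ)) (p := fun x => S.mem x σ)
      (by intro x; simp)]
    rfl
  rw [h1]
  refine Finset.sum_subset (Finset.subset_univ _) ?_
  intro x _ hx
  have : ¬ S.inc x g.1 := by
    intro h
    apply hx
    rw [Finset.mem_filter]
    exact ⟨Finset.mem_univ _, S.mem_of_sub g.1 σ x g.2 h⟩
  have h2 : (lin S).i x g.1 = 0 := by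
    unfold Lin.i
    rw [if_neg]
    exact this
  rw [h2, zero_mul]

theorem loc_K (σ : Q) (g : {g // S.sub g σ}) : (loc S σ).K g = (lin S).K g.1 := by
  have := sum_pts S σ g (fun _ => 1)
  simp only [mul_one] at this
  exact this

/-- sums over the lines of a plane -/
theorem sum_lines (σ : Q) (f : L → ℝ) :
    ∑ g : {g // S.sub g σ}, f g.1 = ∑ g, sb S g σ * f g := by
  classical
  have h1 : ∑ g : {g // S.sub g σ}, f g.1 = ∑ g ∈ univ.filter (fun g => S.sub g σ), f g := by
    rw [Finset.sum_subtype (univ.filter (fun g => S.sub g σ)) (p := fun g => S.sub g σ)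
      (by intro g; simp)]
  rw [h1, Finset.sum_filter]
  refine Finset.sum_congr rfl fun g _ => ?_
  unfold sb
  split_ifs <;> simp

/-- the local quantity of a plane, written with sums over all points and lines -/
theorem loc_J (σ : Q) (a : P → ℝ) (u : L → ℝ) :
    (loc S σ).J (fun x => a x.1) (fun g => u g.1) =
      ∑ x, (∑ g, sb S g σ * ((lin S).i x g * (u g - a x))) ^ 2 -
        ∑ g, sb S g σ * ∑ x, (lin S).i x g * (u g - a x) ^ 2 := by
  classical
  unfold Lin.J
  congr 1
  · have h1 : ∀ x : {x // S.mem x σ}, ∑ g : {g // S.sub g σ},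
        (loc S σ).i x g * (u g.1 - a x.1) = ∑ g, sb S g σ * ((lin S).i x.1 g * (u g - a x.1)) := by
      intro x
      rw [← sum_lines S σ (fun g => (lin S).i x.1 g * (u g - a x.1))]
      rfl
    rw [Finset.sum_congr rfl fun x _ => by rw [h1 x]]
    have h2 : ∑ x : {x // S.mem x σ},
        (∑ g, sb S g σ * ((lin S).i x.1 g * (u g - a x.1))) ^ 2 =
        ∑ x ∈ univ.filter (fun x => S.mem x σ),
          (∑ g, sb S g σ * ((lin S).i x g * (u g - a x))) ^ 2 := by
      rw [Finset.sum_subtype (univ.filter (fun x => S.mem x σ)) (p := fun x => S.mem x σ)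
        (by intro x; simp)]
    rw [h2]
    refine Finset.sum_subset (Finset.subset_univ _) ?_
    intro x _ hx
    have h3 : ∑ g, sb S g σ * ((lin S).i x g * (u g - a x)) = 0 := by
      refine Finset.sum_eq_zero fun g _ => ?_
      by_cases hg : S.sub g σ
      · have : ¬ S.inc x g := by
          intro h
          apply hx
          rw [Finset.mem_filter]
          exact ⟨Finset.mem_univ _, S.mem_of_sub g σ x hg h⟩
        have h2 : (lin S).i x g = 0 := by
          unfold Lin.i
          rw [if_neg]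
          exact this
        rw [h2]; ring
      · have : sb S g σ = 0 := by unfold sb; rw [if_neg hg]
        rw [this, zero_mul]
    rw [h3]; ring
  · rw [← sum_lines S σ (fun g => ∑ x, (lin S).i x g * (u g - a x) ^ 2)]
    refine Finset.sum_congr rfl fun g _ => ?_
    exact sum_pts S σ g (fun x => (u g.1 - a x) ^ 2)

theorem sb_sq (g : L) (σ : Q) : sb S g σ * sb S g σ = sb S g σ := by
  unfold sb; split_ifs <;> norm_num

/-- two distinct intersecting lines are in exactly one plane -/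
theorem sb_pair {x : P} {g h : L} (hne : g ≠ h) (hg : S.inc x g) (hh : S.inc x h) :
    ∑ σ, sb S g σ * sb S h σ = 1 := by
  classical
  obtain ⟨σ, ⟨h1, h2⟩, h3⟩ := S.exists_unique_plane x g h hg hh hne
  rw [Finset.sum_eq_single σ]
  · simp [sb, h1, h2]
  · intro τ _ hτ
    by_cases h4 : S.sub g τ
    · by_cases h5 : S.sub h τ
      · exact absurd (h3 τ ⟨h4, h5⟩) hτ
      · simp [sb, h5]
    · simp [sb, h4]
  · simp

/-- the sum over the planes of the square of the local load -/
theorem sum_sq (x : P) (y : L → ℝ) (hy : ∀ g, ¬ S.inc x g → y g = 0) :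
    ∑ σ, (∑ g, sb S g σ * y g) ^ 2 =
      (∑ g, y g) ^ 2 + ∑ g, (∑ σ, sb S g σ - 1) * y g ^ 2 := by
  classical
  have h1 : ∀ σ, (∑ g, sb S g σ * y g) ^ 2 =
      ∑ g, ∑ h, (y g * y h) * (sb S g σ * sb S h σ) := by
    intro σ
    rw [sq, Finset.sum_mul_sum]
    refine Finset.sum_congr rfl fun g _ => Finset.sum_congr rfl fun h _ => by ring
  rw [Finset.sum_congr rfl fun σ _ => h1 σ, Finset.sum_comm]
  have h2 : ∀ g, ∑ σ, ∑ h, (y g * y h) * (sb S g σ * sb S h σ) =
      y g * ∑ h, y h + (∑ σ, sb S g σ - 1) * y g ^ 2 := by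
    intro g
    rw [Finset.sum_comm]
    have h3 : ∀ h, ∑ σ, (y g * y h) * (sb S g σ * sb S h σ) =
        y g * y h + if g = h then (∑ σ, sb S g σ - 1) * y g ^ 2 else 0 := by
      intro h
      rw [← Finset.mul_sum]
      split_ifs with hgh
      · subst hgh
        simp only [sb_sq]
        ring
      · by_cases hg : S.inc x g
        · by_cases hh : S.inc x h
          · rw [sb_pair S hgh hg hh]; ring
          · rw [hy h hh]; ring
        · rw [hy g hg]; ring
    rw [Finset.sum_congr rfl fun h _ => h3 h, Finset.sum_add_distrib, Finset.sum_ite_eq,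
      if_pos (Finset.mem_univ _), Finset.mul_sum]
  rw [Finset.sum_congr rfl fun g _ => h2 g, Finset.sum_add_distrib, ← Finset.sum_mul, sq (∑ g, y g)]

/-- the global identity -/
theorem sum_J (a : P → ℝ) (u : L → ℝ) :
    ∑ σ, (loc S σ).J (fun x => a x.1) (fun g => u g.1) =
      ∑ x, (∑ g, (lin S).i x g * (u g - a x)) ^ 2 -
        ∑ g, ∑ x, (lin S).i x g * (u g - a x) ^ 2 := by
  classical
  rw [Finset.sum_congr rfl fun σ _ => loc_J S σ a u, Finset.sum_sub_distrib, Finset.sum_comm]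
  have h1 : ∀ x, ∑ σ, (∑ g, sb S g σ * ((lin S).i x g * (u g - a x))) ^ 2 =
      (∑ g, (lin S).i x g * (u g - a x)) ^ 2 +
        ∑ g, (∑ σ, sb S g σ - 1) * ((lin S).i x g * (u g - a x)) ^ 2 := by
    intro x
    refine sum_sq S x _ ?_
    intro g hg
    have : (lin S).i x g = 0 := by
      unfold Lin.i
      rw [if_neg]
      exact hg
    rw [this, zero_mul]
  rw [Finset.sum_congr rfl fun x _ => h1 x, Finset.sum_add_distrib]
  have h2 : ∑ x, ∑ g, (∑ σ, sb S g σ - 1) * ((lin S).i x g * (u g - a x)) ^ 2 =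
      ∑ g, (∑ σ, sb S g σ - 1) * ∑ x, (lin S).i x g * (u g - a x) ^ 2 := by
    rw [Finset.sum_comm]
    refine Finset.sum_congr rfl fun g _ => ?_
    rw [Finset.mul_sum]
    refine Finset.sum_congr rfl fun x _ => ?_
    rw [mul_pow, sq ((lin S).i x g), (lin S).i_sq]
  have h3 : ∑ σ, ∑ g, sb S g σ * ∑ x, (lin S).i x g * (u g - a x) ^ 2 =
      ∑ g, (∑ σ, sb S g σ) * ∑ x, (lin S).i x g * (u g - a x) ^ 2 := by
    rw [Finset.sum_comm]
    refine Finset.sum_congr rfl fun g _ => ?_
    rw [Finset.sum_mul]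
  rw [h2, h3]
  have h4 : ∑ g, (∑ σ, sb S g σ - 1) * ∑ x, (lin S).i x g * (u g - a x) ^ 2 =
      ∑ g, (∑ σ, sb S g σ) * ∑ x, (lin S).i x g * (u g - a x) ^ 2 -
        ∑ g, ∑ x, (lin S).i x g * (u g - a x) ^ 2 := by
    rw [← Finset.sum_sub_distrib]
    refine Finset.sum_congr rfl fun g _ => by ring
  rw [h4]
  ring

end Pool.Agent.PLP33
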