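import Mathlib
import Pool.Agent.PLP33.Planes

/-!
# The points-lines-planes inequality for planar spaces, with the equality case
-/

open Finset

set_option linter.unusedSectionVars false

namespace Pool.Agent.PLP33

open Pool.Agent.H27

variable {P L Q : Type*} [Fintype P] [Fintype L] [Fintype Q] (S : Planar P L Q)

/-- the energy of a line is at least `2c - c² k` -/
theorem energy (Λ : Lin P L) (a : P → ℝ) (g : L) (c : ℝ) :
    2 * c - c ^ 2 * Λ.K g ≤
      ∑ x, Λ.i x g * ((1 + ∑ y, Λ.i y g * a y) / Λ.K g - a x) ^ 2 := by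
  set v := (1 + ∑ y, Λ.i y g * a y) / Λ.K g with hv
  have hK : Λ.K g ≠ 0 := by have := Λ.K_two g; linarith
  have h1 : ∑ x, Λ.i x g * (v - a x) = 1 := by
    have : ∑ x, Λ.i x g * (v - a x) = Λ.K g * v - ∑ x, Λ.i x g * a x := by
      unfold Lin.K
      rw [Finset.sum_mul, ← Finset.sum_sub_distrib]
      refine Finset.sum_congr rfl fun x _ => by ring
    rw [this, hv]
    field_simp
    ring
  have h2 : 0 ≤ ∑ x, Λ.i x g * (v - a x - c) ^ 2 :=
    Finset.sum_nonneg fun x _ => mul_nonneg (Λ.i_nonneg x g) (sq_nonneg _)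
  have h3 : ∑ x, Λ.i x g * (v - a x - c) ^ 2 =
      ∑ x, Λ.i x g * (v - a x) ^ 2 - 2 * c * ∑ x, Λ.i x g * (v - a x) + c ^ 2 * Λ.K g := by
    unfold Lin.K
    rw [Finset.mul_sum, Finset.mul_sum, ← Finset.sum_sub_distrib, ← Finset.sum_add_distrib]
    refine Finset.sum_congr rfl fun x _ => by ring
  rw [h3, h1] at h2
  linarith

theorem sum_K_le (Λ : Lin P L) :
    ∑ g, Λ.K g ≤ (Fintype.card P : ℝ) * ((Fintype.card P : ℝ) - 1) := by
  rw [← Λ.sum_KK]
  refine Finset.sum_le_sum fun g _ => ?_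
  have := Λ.K_two g
  nlinarith

/-- **points-lines-planes**, first form, with equality information -/
theorem main (hn : 3 ≤ Fintype.card P) :
    (3 / 2 : ℝ) * (Fintype.card Q : ℝ) ≤
      (Fintype.card L : ℝ) ^ 2 * ((Fintype.card P : ℝ) - 2) /
        ((Fintype.card P : ℝ) * ((Fintype.card P : ℝ) - 1)) ∧
    ((3 / 2 : ℝ) * (Fintype.card Q : ℝ) =
      (Fintype.card L : ℝ) ^ 2 * ((Fintype.card P : ℝ) - 2) /
        ((Fintype.card P : ℝ) * ((Fintype.card P : ℝ) - 1)) →
      ∀ σ : Q, Fintype.card {x // S.mem x σ} = 3) := by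
  classical
  obtain ⟨n, hnn⟩ : ∃ n : ℝ, n = (Fintype.card P : ℝ) := ⟨_, rfl⟩
  obtain ⟨t, ht⟩ : ∃ t : ℝ, t = (Fintype.card L : ℝ) := ⟨_, rfl⟩
  have hn3 : 3 ≤ n := by rw [hnn]; exact_mod_cast hn
  have hP : Nonempty P := Fintype.card_pos_iff.mp (by omega)
  obtain ⟨a, ha⟩ := (lin S).exists_pot hP
  obtain ⟨u, hu⟩ : ∃ u : L → ℝ, u = fun g => (1 + ∑ y, (lin S).i y g * a y) / (lin S).K g :=
    ⟨_, rfl⟩
  have ha' : ∀ x, ∑ g, (lin S).i x g * (u g - a x) = t / n := by
    intro x; rw [ht, hnn, ← ha x, hu]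
  have hloc : ∀ σ (g : {g // S.sub g σ}), (loc S σ).K g * u g.1 =
      1 + ∑ x : {x // S.mem x σ}, (loc S σ).i x g * a x.1 := by
    intro σ g
    rw [sum_pts S σ g a, loc_K, hu]
    have hK : (lin S).K g.1 ≠ 0 := by have := (lin S).K_two g.1; linarith
    field_simp
  have hJ : ∀ σ, 3 / 2 ≤ (loc S σ).J (fun x => a x.1) (fun g => u g.1) := fun σ =>
    (loc S σ).J_ge (loc_ne S σ) (loc_nc S σ) _ _ (hloc σ)
  have hsum := sum_J S a u
  -- the loads
  have hload : ∑ x, (∑ g, (lin S).i x g * (u g - a x)) ^ 2 = t ^ 2 / n := by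
    rw [Finset.sum_congr rfl fun x _ => by rw [ha' x]]
    simp only [Finset.sum_const, Finset.card_univ, nsmul_eq_mul]
    rw [← hnn]
    field_simp
  -- the energy
  obtain ⟨c, hc⟩ : ∃ c : ℝ, c = t / (n * (n - 1)) := ⟨_, rfl⟩
  have hW : 2 * c * t - c ^ 2 * ∑ g, (lin S).K g ≤
      ∑ g, ∑ x, (lin S).i x g * (u g - a x) ^ 2 := by
    have h1 := Finset.sum_le_sum fun g (_ : g ∈ (univ : Finset L)) => energy (lin S) a g c
    have h2 : ∑ g, (2 * c - c ^ 2 * (lin S).K g) =
        2 * c * t - c ^ 2 * ∑ g, (lin S).K g := by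
      rw [Finset.sum_sub_distrib, Finset.mul_sum, ht]
      simp only [Finset.sum_const, Finset.card_univ, nsmul_eq_mul]
      ring
    rw [h2] at h1
    rw [hu]
    exact h1
  have hKs := sum_K_le (lin S)
  rw [← hnn] at hKs
  have hn1 : 0 < n * (n - 1) := mul_pos (by linarith) (by linarith)
  have hc1 : c * (n * (n - 1)) = t := by rw [hc]; exact div_mul_cancel₀ _ hn1.ne'
  have hid : t ^ 2 / n - (2 * c * t - c ^ 2 * (n * (n - 1))) =
      t ^ 2 * (n - 2) / (n * (n - 1)) := by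
    have e1 : 2 * c * t - c ^ 2 * (n * (n - 1)) = c * t := by
      have : c ^ 2 * (n * (n - 1)) = c * (c * (n * (n - 1))) := by ring
      rw [this, hc1]; ring
    rw [e1, hc]
    have hn0 : n ≠ 0 := by linarith
    have hn10 : n - 1 ≠ 0 := by linarith
    field_simp
    ring
  rw [hload] at hsum
  have hSJ : (3 / 2 : ℝ) * (Fintype.card Q : ℝ) ≤
      ∑ σ, (loc S σ).J (fun x => a x.1) (fun g => u g.1) := by
    have h1 := Finset.sum_le_sum fun σ (_ : σ ∈ (univ : Finset Q)) => hJ σ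
    simp only [Finset.sum_const, Finset.card_univ, nsmul_eq_mul] at h1
    linarith
  have hcK : c ^ 2 * ∑ g, (lin S).K g ≤ c ^ 2 * (n * (n - 1)) :=
    mul_le_mul_of_nonneg_left hKs (sq_nonneg c)
  rw [← hnn, ← ht]
  refine ⟨by rw [← hid]; linarith, fun heq σ => ?_⟩
  rw [← hid] at heq
  -- equality everywhere
  have hSJe : ∑ σ, (loc S σ).J (fun x => a x.1) (fun g => u g.1) =
      (3 / 2 : ℝ) * (Fintype.card Q : ℝ) := by linarith
  have hcKe : c ^ 2 * ∑ g, (lin S).K g = c ^ 2 * (n * (n - 1)) := by linarith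
  have ht0 : 0 < t := by
    obtain ⟨g⟩ := loc_ne S σ
    rw [ht]
    exact_mod_cast Fintype.card_pos_iff.mpr ⟨g.1⟩
  have hc0 : 0 < c := by rw [hc]; exact div_pos ht0 hn1
  have hKe : ∑ g, (lin S).K g = n * (n - 1) :=
    mul_left_cancel₀ (pow_ne_zero 2 hc0.ne') hcKe
  have hK2 : ∀ g, (lin S).K g = 2 := by
    have h1 : ∑ g, (lin S).K g * ((lin S).K g - 2) = 0 := by
      have h2 := (lin S).sum_KK
      rw [← hnn] at h2
      have h3 : ∑ g, (lin S).K g * ((lin S).K g - 2) =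
          ∑ g, (lin S).K g * ((lin S).K g - 1) - ∑ g, (lin S).K g := by
        rw [← Finset.sum_sub_distrib]
        refine Finset.sum_congr rfl fun g _ => by ring
      rw [h3, h2, hKe, sub_self]
    intro g
    have h4 := (Finset.sum_eq_zero_iff_of_nonneg (fun g _ => by
      have := (lin S).K_two g
      exact mul_nonneg (by linarith) (by linarith))).mp h1 g (Finset.mem_univ g)
    have h5 := (lin S).K_two g
    rcases mul_eq_zero.mp h4 with h | h
    · linarith
    · linarith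
  have hJe : (loc S σ).J (fun x => a x.1) (fun g => u g.1) = 3 / 2 := by
    have h1 : ∑ σ, ((loc S σ).J (fun x => a x.1) (fun g => u g.1) - 3 / 2) = 0 := by
      rw [Finset.sum_sub_distrib, hSJe]
      simp only [Finset.sum_const, Finset.card_univ, nsmul_eq_mul]
      ring
    have h2 := (Finset.sum_eq_zero_iff_of_nonneg (fun σ _ => sub_nonneg.2 (hJ σ))).mp h1 σ
      (Finset.mem_univ σ)
    linarith
  have h3 := (loc S σ).three_le (loc_ne S σ) (loc_nc S σ)
  by_contra hne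
  have h4 : 4 ≤ Fintype.card {x // S.mem x σ} := by omega
  have hkn : ∀ g, (loc S σ).kn g = 2 := by
    intro g
    have h5 := (loc S σ).K_eq g
    rw [loc_K, hK2] at h5
    exact_mod_cast h5.symm
  have := (loc S σ).J_gt h4 hkn _ _ (hloc σ)
  rw [hJe] at this
  exact lt_irrefl _ this

end Pool.Agent.PLP33
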