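import Mathlib
import Pool.Agent.PLP33.Main

/-!
# The planar space of a simple matroid
-/

namespace Pool.Agent.PLP33

open Pool.Agent.H27 Set

variable {α : Type*}

/-- an independent subset of full rank in a flat spans it -/
theorem closure_eq_of_flat {M : Matroid α} {F I : Set α} (hF : M.IsFlat F) (hI : M.Indep I)
    (hIfin : I.Finite) (hIF : I ⊆ F) (h : M.eRk F ≤ I.encard) : M.closure I = F := by
  have h1 : M.IsBasis I F :=
    hI.isBasis_of_eRk_ge hIfin hIF (by rw [hI.eRk_eq_encard]; exact h) hF.subset_ground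
  rw [h1.closure_eq_closure, hF.closure]

/-- the planar space of a simple matroid -/
def planar (M : Matroid α) (hs : ∀ e ∈ M.E, ∀ f ∈ M.E, M.Indep {e, f}) :
    Planar M.E {F : Set α // M.IsFlat F ∧ M.eRk F = 2} {F : Set α // M.IsFlat F ∧ M.eRk F = 3} where
  inc p l := (p : α) ∈ (l : Set α)
  sub l σ := (l : Set α) ⊆ (σ : Set α)
  mem p σ := (p : α) ∈ (σ : Set α)
  line_exists := by
    rintro ⟨a, ha⟩ ⟨b, hb⟩ hab
    have hab' : a ≠ b := fun h => hab (Subtype.ext h)
    have hI := hs a ha b hb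
    refine ⟨⟨M.closure {a, b}, M.isFlat_closure _, ?_⟩, ?_, ?_⟩
    · rw [M.eRk_closure_eq, hI.eRk_eq_encard, Set.encard_pair hab']
    · exact M.subset_closure {a, b} hI.subset_ground (by simp)
    · exact M.subset_closure {a, b} hI.subset_ground (by simp)
  line_unique := by
    rintro ⟨a, ha⟩ ⟨b, hb⟩ ⟨l, hl, hl2⟩ ⟨l', hl', hl2'⟩ hab h1 h2 h3 h4
    have hab' : a ≠ b := fun h => hab (Subtype.ext h)
    have hI := hs a ha b hb
    have e1 := closure_eq_of_flat hl hI (by simp) (Set.pair_subset h1 h2)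
      (by rw [hl2, Set.encard_pair hab'])
    have e2 := closure_eq_of_flat hl' hI (by simp) (Set.pair_subset h3 h4)
      (by rw [hl2', Set.encard_pair hab'])
    exact Subtype.ext (e1.symm.trans e2)
  line_two := by
    rintro ⟨l, hl, hl2⟩
    obtain ⟨I, hI1, hI2, hI3⟩ := Matroid.le_eRk_iff.mp hl2.ge
    obtain ⟨a, b, hab, rfl⟩ := Set.encard_eq_two.mp hI3
    exact ⟨⟨a, hI2.subset_ground (by simp)⟩, ⟨b, hI2.subset_ground (by simp)⟩,
      fun h => hab (Subtype.ext_iff.mp h), hI1 (by simp), hI1 (by simp)⟩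
  mem_of_sub := fun l σ p h hp => h hp
  sub_of_mem := by
    rintro ⟨a, ha⟩ ⟨b, hb⟩ ⟨l, hl, hl2⟩ ⟨σ, hσ, hσ3⟩ hab h1 h2 h3 h4
    have hab' : a ≠ b := fun h => hab (Subtype.ext h)
    have hI := hs a ha b hb
    have e1 := closure_eq_of_flat hl hI (by simp) (Set.pair_subset h3 h4)
      (by rw [hl2, Set.encard_pair hab'])
    change l ⊆ σ
    rw [← e1]
    exact (M.closure_subset_closure (Set.pair_subset h1 h2)).trans hσ.closure.subset
  plane_exists := by
    rintro ⟨l, hl, hl2⟩ ⟨p, hp⟩ hpl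
    refine ⟨⟨M.closure (insert p l), M.isFlat_closure _, ?_⟩, ?_, ?_⟩
    · rw [M.eRk_closure_eq, M.eRk_insert_eq_add_one ⟨hp, by rw [hl.closure]; exact hpl⟩, hl2]
      norm_num
    · exact (Set.subset_insert p l).trans
        (M.subset_closure _ (Set.insert_subset hp hl.subset_ground))
    · exact M.subset_closure _ (Set.insert_subset hp hl.subset_ground) (Set.mem_insert p l)
  plane_unique := by
    rintro ⟨l, hl, hl2⟩ ⟨p, hp⟩ ⟨σ, hσ, hσ3⟩ ⟨σ', hσ', hσ3'⟩ hpl h1 h2 h3 h4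
    obtain ⟨I, hI1, hI2, hI3⟩ := Matroid.le_eRk_iff.mp hl2.ge
    have hcl := closure_eq_of_flat hl hI2 (Set.finite_of_encard_eq_coe hI3) hI1
      (by rw [hl2, hI3])
    have hpI : p ∉ M.closure I := by rw [hcl]; exact hpl
    have hpI' : p ∉ I := fun h => hpl (hI1 h)
    have hJ : M.Indep (insert p I) := (hI2.notMem_closure_iff_of_notMem hpI' hp).mp hpI
    have hJ3 : (insert p I).encard = 3 := by
      rw [Set.encard_insert_of_notMem hpI', hI3]; norm_num
    have hJfin : (insert p I).Finite := (Set.finite_of_encard_eq_coe hI3).insert p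
    have e1 := closure_eq_of_flat hσ hJ hJfin (Set.insert_subset h2 (hI1.trans h1))
      (by rw [hσ3, hJ3])
    have e2 := closure_eq_of_flat hσ' hJ hJfin (Set.insert_subset h4 (hI1.trans h3))
      (by rw [hσ3', hJ3])
    exact Subtype.ext (e1.symm.trans e2)
  plane_three := by
    rintro ⟨σ, hσ, hσ3⟩
    obtain ⟨I, hI1, hI2, hI3⟩ := Matroid.le_eRk_iff.mp hσ3.ge
    obtain ⟨a, b, c, hab, hac, hbc, rfl⟩ := Set.encard_eq_three.mp hI3
    refine ⟨⟨a, hI2.subset_ground (by simp)⟩, ⟨b, hI2.subset_ground (by simp)⟩,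
      ⟨c, hI2.subset_ground (by simp)⟩, hI1 (by simp), hI1 (by simp), hI1 (by simp),
      fun h => hab (Subtype.ext_iff.mp h), ?_⟩
    rintro ⟨l, hl, hl2⟩ h1 h2 h3
    have : ({a, b, c} : Set α) ⊆ l := by
      intro x hx
      simp only [Set.mem_insert_iff, Set.mem_singleton_iff] at hx
      rcases hx with rfl | rfl | rfl
      · exact h1
      · exact h2
      · exact h3
    have h4 := hI2.encard_le_eRk_of_subset this
    rw [hI3, hl2] at h4
    exact absurd h4 (by norm_num)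


/-- the points-lines-planes inequality for matroids, in terms of cardinalities -/
theorem matroid_main (M : Matroid α) [M.Finite] (hs : ∀ e ∈ M.E, ∀ f ∈ M.E, M.Indep {e, f})
    (hn : 3 ≤ M.E.ncard) :
    (3 / 2 : ℝ) * ({F : Set α | M.IsFlat F ∧ M.eRk F = 3}.ncard : ℝ) ≤
      ({F : Set α | M.IsFlat F ∧ M.eRk F = 2}.ncard : ℝ) ^ 2 * ((M.E.ncard : ℝ) - 2) /
        ((M.E.ncard : ℝ) * ((M.E.ncard : ℝ) - 1)) ∧
    ((3 / 2 : ℝ) * ({F : Set α | M.IsFlat F ∧ M.eRk F = 3}.ncard : ℝ) =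
      ({F : Set α | M.IsFlat F ∧ M.eRk F = 2}.ncard : ℝ) ^ 2 * ((M.E.ncard : ℝ) - 2) /
        ((M.E.ncard : ℝ) * ((M.E.ncard : ℝ) - 1)) →
      ∀ F : Set α, M.IsFlat F → M.eRk F = 3 → F.ncard = 3) := by
  classical
  have hE : M.E.Finite := M.ground_finite
  have hsub : ∀ r : ℕ∞, {F : Set α | M.IsFlat F ∧ M.eRk F = r}.Finite := fun r =>
    hE.finite_subsets.subset fun F hF => hF.1.subset_ground
  have : Fintype M.E := hE.fintype
  have : Fintype {F : Set α // M.IsFlat F ∧ M.eRk F = 2} := (hsub 2).fintype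
  have : Fintype {F : Set α // M.IsFlat F ∧ M.eRk F = 3} := (hsub 3).fintype
  have e1 : Fintype.card M.E = M.E.ncard := by
    rw [← Nat.card_eq_fintype_card, Nat.card_coe_set_eq]
  have e2 : Fintype.card {F : Set α // M.IsFlat F ∧ M.eRk F = 2} =
      {F : Set α | M.IsFlat F ∧ M.eRk F = 2}.ncard := by
    rw [← Nat.card_eq_fintype_card]; exact Nat.card_coe_set_eq _
  have e3 : Fintype.card {F : Set α // M.IsFlat F ∧ M.eRk F = 3} =
      {F : Set α | M.IsFlat F ∧ M.eRk F = 3}.ncard := by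
    rw [← Nat.card_eq_fintype_card]; exact Nat.card_coe_set_eq _
  have h := main (planar M hs) (by rw [e1]; exact hn)
  rw [e1, e2, e3] at h
  refine ⟨h.1, fun heq F hF hF3 => ?_⟩
  have h3 := h.2 heq ⟨F, hF, hF3⟩
  rw [← Nat.card_eq_fintype_card] at h3
  rw [← h3, ← Nat.card_coe_set_eq]
  refine (Nat.card_congr ?_).symm
  exact
    { toFun := fun x => ⟨x.1.1, x.2⟩
      invFun := fun x => ⟨⟨x.1, hF.subset_ground x.2⟩, x.2⟩
      left_inv := fun x => by rfl
      right_inv := fun x => by rfl }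

end Pool.Agent.PLP33
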